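import Pool.Agent.Run7.h810.DF.Per

namespace Pool.Agent.Results.MP_cd171c_nt.PeriodsOverF

open NumberField Pool.Agent.Run7.h810.DF

/-- Let `M` be a motive over a number field `F`, with coefficients in `C`, given by its Frobenius
traces `t p k`.

(1) Let `𝒢` be a class of extensions `K` of `F`, closed under cyclic extensions of prime degree. If
the quotients of the `L`-values at `m` of two twists of the base change of `M` to `K` by characters
`ψ`, `ψ'` of the same signature have the expected form, for all `K` in `𝒢` (no periods occur here),
then there are periods `A`, `B σ` (`σ` an embedding of `F`) such that Deligne's relation with these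
periods holds for `M ⊗ ρ`, for all Artin representations `ρ` of `Gal(N/F)`, if this group is
nilpotent, or if the fixed fields of its nilpotent subgroups are in `𝒢`.

(2) There are periods `A`, `B σ` such that Deligne's relation holds for `M ⊗ ρ` for all Artin
representations `ρ` of `Gal(F)` if and only if the relation for the quotients holds for all finite
extensions `K` of `F`. -/
theorem result (F : Type) [Field F] [NumberField F] (C : Type) [Field C]
    (t : Ideal (𝓞 F) → ℕ → C) (r : ℕ) (m : ℂ) (b : ℝ) :
    (∀ 𝒢 : (E : Ext F) → Subgroup (Gal E) → Prop, Adm 𝒢 → Quo r m t b 𝒢 →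
      Deligne r m t b (fun E => Group.IsNilpotent (Gal E) ∨
        ∀ V : Subgroup (Gal E), Group.IsNilpotent V → 𝒢 E V)) ∧
    (Deligne r m t b (fun _ => True) ↔ Quo r m t b (fun _ _ => True)) := by
  refine ⟨fun 𝒢 h𝒢 hC => ?_, main_iff t r m b⟩
  obtain ⟨A, B, hA, hB, h⟩ := per h𝒢 hC
  exact ⟨A, B, hA, hB, fun e τ E hE n ρ => h e τ E (nice_of h𝒢 E hE) n ρ⟩

end Pool.Agent.Results.MP_cd171c_nt.PeriodsOverF
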