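import Pool.Agent.Run7.h810.DW.Grp

namespace Pool.Agent.Results.MP_cd171c_nt.RealOrCMTwists

open NumberField Pool.Agent.Run7.h810.DF Pool.Agent.Run7.h810.DW

/-- Let `M` be a motive over a number field `F` (for instance totally real), with coefficients in
`C`, given by its Frobenius traces `t p k`, let `w` be a monomial in the values of an L-function at
finitely many points, and let `𝒞` be a class of finite groups, for instance all groups, the solvable
groups, or the 2-groups. Let `𝒩` be the class of the Galois extensions `N` of `F` with group in `𝒞`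
which are totally real or CM, or the class of those which are totally real.

(1) There are periods `A`, `B σ` (`σ` an embedding of `F`) such that Deligne's relation with these
periods holds for the values `w` of `L(s, M ⊗ ρ)`, for all Artin representations `ρ` of the fields
`N` in `𝒩`, if and only if the quotients of the values `w` of `L(s, M_K ⊗ ψ)` and `L(s, M_K ⊗ ψ')`
have the expected form for all characters `ψ`, `ψ'` of `Gal(N/K)` of the same signature, for the
fields `K` between `F` and `N`; here no periods occur, and `K` is totally real or CM.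

(2) For given periods `A`, `B σ`, for instance Deligne's, the relation holds for all `ρ` if and only
if the relation for the quotients holds, and Deligne's relation holds for one character of `F` of
every signature (that is, for one even and one odd character, or for one even character). -/
theorem result :
    (GrpClass (fun _ _ => True) ∧ GrpClass (fun G _ => Group.IsSolvable G) ∧
      GrpClass (fun G _ => IsPGroup 2 G)) ∧
    ∀ (F : Type) [Field F] [NumberField F] (C : Type) [Field C] (t : Ideal (𝓞 F) → ℕ → C)
      (w : ℂ →₀ ℤ) (r : ℤ) (b : ℝ) (𝒞 : (G : Type) → [Group G] → Prop), GrpClass 𝒞 →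
      ∀ 𝒩 : Ext F → Prop,
        (𝒩 = (fun E => RealOrCM E ∧ 𝒞 (Gal E)) ∨ 𝒩 = fun E => TotReal E ∧ 𝒞 (Gal E)) →
        (Deligne w r t b 𝒩 ↔ Quo w r t b 𝒩) ∧
        ∀ (A : (C →+* ℂ) → ℂ) (B : (C →+* ℂ) → (F →+* ℂ) → ℂ),
          (∀ e, A e ≠ 0) → (∀ e σ, B e σ ≠ 0) →
          (DelAll w r t b A B 𝒩 ↔ Quo w r t b 𝒩 ∧ DelOne w r t b A B 𝒩) := by
  refine ⟨⟨grp_all, grp_solvable, grp_two⟩, fun F _ _ C _ t w r b 𝒞 h 𝒩 h𝒩 => ?_⟩
  rcases h𝒩 with rfl | rfl
  · exact bothB t w r b h
  · exact bothC t w r b h

end Pool.Agent.Results.MP_cd171c_nt.RealOrCMTwists
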