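import Mathlib
import Pool.Agent.Run7.h988.DG.Fin

/-!
# Deligne's conjecture for all Artin twists when the order of vanishing is at most two

Let `M` be a motive over `ℚ` with coefficients in the number field `E`, of odd weight, and let `K/ℚ` be a
Galois extension with group `G`. For an embedding `τ` of `E` and an irreducible complex character `χ` of
`G` let `L τ χ` be the L-function of `τM ⊗ χ` and `P τ χ` its Deligne period at the critical integer `c`
(the same integers are critical for all twists). For an Artin representation `ρ` of `G` over a field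
`E' ⊇ E` the L-function and the period of `M ⊗ ρ` at an embedding of `E'` are the products of those of the
irreducible constituents, and Deligne's conjecture for `M ⊗ ρ` at `c`, with coefficients in `E'`, says
that there is ONE element `e` of `E'` such that for all embeddings the value is the conjugate of `e` times
the period (`Holds`); in particular the value vanishes at all embeddings or at none.

The values of the twists `M ⊗ Ind ψ` by monomial characters are those of the L-functions of `M` over the
subfields of `K`, twisted by characters of finite order. By Brauer's theorem all other twists are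
QUOTIENTS of these; this gives nothing for the vanishing values (`0/0`), and no information on the
vanishing of the conjugate values.

**Theorem.** Suppose that Deligne's conjecture at `c` holds for the monomial twists `M ⊗ Ind ψ` (with
coefficients in an extension `E'` of `E` by roots of unity). Suppose that for ONE embedding `τ₀` of `E`
one of the following conditions on the order of vanishing at `c` of the L-function of `τ₀M` over `K` is
satisfied.
1. The order is at most one. (Here the monomial characters of hyperelementary subgroups suffice.)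
2. The order is at most two and `τ₀` is real.
3. The order is at most two, and no twist by a representation induced from the two-dimensional
   representation of a quaternion group of order eight has a simple zero.
4. For some normal subgroup `N` of `G` with fixed field `F`, all zeros come from the largest abelian
   extension of `F` in `K`, the L-functions of `M` over `F` twisted by the nontrivial characters have at
   most a simple zero, and `Gal(F/ℚ)` is abelian-by-nilpotent (or Deligne's conjecture holds for the
   twists by all representations of `Gal(F/ℚ)`).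

Then Deligne's conjecture at `c` holds for `M ⊗ ρ` for ALL representations `ρ` of `G` over `E` (in case 2:
if the L-function of `τ₀M ⊗ ρ` has no pole at `c`), with coefficients in `E`; also for the vanishing
values. For the motives of CM type the assumption on the monomial twists is the theorem of Blasius and of
Harder and Schappacher on the L-functions of Hecke characters of all number fields.

The proofs of the theorems over `E'` in the cases 1, 3, 4 are those of the starting library
`Pool/Agent/R389` (whose theorems on this conjecture no starting result used); the case 2 extends its case of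
rational coefficients. The descent of the coefficients from `E'` to `E` is in
`Pool/Agent/Run7/h988/DG/Descend.lean`.
-/

set_option autoImplicit false

open Filter Topology Pool.Agent.H541R3.ART

namespace Pool.Agent.Results.MP_cd171c_nt.SmallOrders

/-- The L-functions `L τ χ` of the twists `τM ⊗ χ` of a motive `M` with coefficients in `E` by the
irreducible complex characters `χ` of the group `G`, meromorphic and not identically zero near `c`, and
the periods `P τ χ ≠ 0` of these twists; `τ` runs through the embeddings of `E`. -/
structure Twists (E G : Type) [Field E] [Group G] (c : ℂ) where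
  /-- the L-functions -/
  L : (E →+* ℂ) → (G → ℂ) → ℂ → ℂ
  /-- the periods -/
  P : (E →+* ℂ) → (G → ℂ) → ℂ
  /-- the L-functions are meromorphic and not identically zero near `c` -/
  mero : ∀ τ, ∀ χ ∈ Irr G, MeromorphicAt (L τ χ) c ∧ meromorphicOrderAt (L τ χ) c ≠ ⊤
  /-- the periods are not zero -/
  ne : ∀ τ, ∀ χ ∈ Irr G, P τ χ ≠ 0

/-- `f` is the sum of `m χ` copies of `χ` over the irreducible complex characters `χ` of `G` -/
def IsSum {G : Type} [Group G] (f : G → ℂ) (m : (G → ℂ) → ℕ) : Prop :=
  ∀ g, f g = ∑ᶠ χ ∈ Irr G, (m χ : ℂ) * χ g

variable {E G : Type} [Field E] [Group G] {c : ℂ}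

/-- **Deligne's conjecture** at `c` for the character `f` of `G` with values in `E' ⊇ E`: for one
`e ∈ E'`, at every embedding `τ` of `E'`, the value at `c` of the L-function of `f` at `τ` (the product of
the L-functions of the irreducible constituents of `τ ∘ f`) is `τ e` times the period of `f` at `τ`. -/
def Holds (D : Twists E G c) (E' : Type) [Field E'] [Algebra E E'] (f : G → E') : Prop :=
  ∃ e : E', ∀ (τ : E' →+* ℂ) (m : (G → ℂ) → ℕ), IsSum (fun g => τ (f g)) m →
    Tendsto (fun s => ∏ᶠ χ ∈ Irr G, D.L (τ.comp (algebraMap E E')) χ s ^ m χ) (𝓝[≠] c)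
      (𝓝 (τ e * ∏ᶠ χ ∈ Irr G, D.P (τ.comp (algebraMap E E')) χ ^ m χ))

/-- the order at `c` of the product of the L-functions of the characters `χ ∈ S`, each with the
exponent `m χ` -/
noncomputable def order (D : Twists E G c) (τ : E →+* ℂ) (S : Set (G → ℂ)) (m : (G → ℂ) → ℕ) :
    WithTop ℤ :=
  meromorphicOrderAt (fun s => ∏ᶠ χ ∈ S, D.L τ χ s ^ m χ) c

open Classical in
/-- the function induced from a function on a subgroup: `(Ind f) g` is the sum of the values of `f` at
the conjugates `x⁻¹ g x ∈ H`, `x ∈ G`, divided by `|H|` -/
noncomputable def Ind {k : Type*} [Field k] (H : Subgroup G) (f : H → k) (g : G) : k :=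
  (Nat.card H : k)⁻¹ * ∑ᶠ x : G, if h : x⁻¹ * g * x ∈ H then f ⟨x⁻¹ * g * x, h⟩ else 0

/-- the group is hyperelementary: for some prime `p` there is a normal cyclic subgroup of order prime
to `p` whose quotient is a `p`-group -/
def Hyperelementary (U : Type) [Group U] : Prop :=
  ∃ p : ℕ, p.Prime ∧ ∃ c : U, (orderOf c).Coprime p ∧
    (∀ u : U, u * c * u⁻¹ ∈ Subgroup.zpowers c) ∧ ∀ u : U, ∃ k : ℕ, u ^ (p ^ k) ∈ Subgroup.zpowers c

/-- the group has an abelian normal subgroup with nilpotent quotient -/
def AbelianByNilpotent (U : Type) [Group U] : Prop :=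
  ∃ (A : Subgroup U) (_ : A.Normal), (∀ a b : A, a * b = b * a) ∧ Group.IsNilpotent (U ⧸ A)

/-- the character of the two-dimensional representation of the quaternion group of order eight -/
def quaternionCharacter : QuaternionGroup 2 → ℂ
  | QuaternionGroup.a i => if i = 0 then 2 else if i = 2 then -2 else 0
  | QuaternionGroup.xa _ => 0

theorem result {E : Type} [Field E] {G : Type} [Group G] [Finite G] {c : ℂ} (D : Twists E G c)
    (E' : Type) [Field E'] [Algebra E E'] [Algebra.IsAlgebraic E E'] (ζ : E')
    (hζ : IsPrimitiveRoot ζ (Monoid.exponent G)) (τ₀ : E →+* ℂ)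
    (deg : (G → ℂ) → ℕ) (hdeg : ∀ χ ∈ Irr G, χ 1 = deg χ)
    {V : Type} [AddCommGroup V] [Module E V] [FiniteDimensional E V] (ρ : Representation E G V) :
    ((∀ (U : Subgroup G) (ψ : U →* E'ˣ), Hyperelementary U →
        Holds D E' (Ind U (fun u => ((ψ u : E'ˣ) : E')))) →
      order D τ₀ (Irr G) deg ≤ 1 → Holds D E ρ.character) ∧
    ((∀ (U : Subgroup G) (ψ : U →* E'ˣ), Holds D E' (Ind U (fun u => ((ψ u : E'ˣ) : E')))) →
      ((order D τ₀ (Irr G) deg ≤ 2 → (∀ x : E, (starRingEnd ℂ) (τ₀ x) = τ₀ x) →
          (∀ m, IsSum (fun g => τ₀ (ρ.character g)) m → 0 ≤ order D τ₀ (Irr G) m) →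
          Holds D E ρ.character) ∧
        (order D τ₀ (Irr G) deg ≤ 2 →
          (∀ (H : Subgroup G) (f : H →* QuaternionGroup 2), Function.Surjective f →
            ∀ m, IsSum (Ind H (fun h => quaternionCharacter (f h))) m →
              order D τ₀ (Irr G) m ≠ 1) →
          Holds D E ρ.character) ∧
        (∀ (N : Subgroup G) [N.Normal],
          order D τ₀ (Irr G) deg ≤ order D τ₀ {χ ∈ Irr G | ∀ k ∈ ⁅N, N⁆, χ k = χ 1} deg →
          (∀ μ : N →* ℂˣ, μ ≠ 1 → ∀ m, IsSum (Ind N (fun x => ((μ x : ℂˣ) : ℂ))) m →
            order D τ₀ (Irr G) m ≤ 1) →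
          (AbelianByNilpotent (G ⧸ N) ∨
            ∀ (W : Type) [AddCommGroup W] [Module E' W] [FiniteDimensional E' W]
              (σ : Representation E' G W), (∀ k ∈ N, ∀ w, σ k w = w) → Holds D E' σ.character) →
          Holds D E ρ.character))) := by
  have key : Pool.Agent.R389.Deligne D.L D.P c ρ.character → Holds D E ρ.character := by
    intro h
    rw [← Run7.h988.DG.up_self D.L, ← Run7.h988.DG.up_self D.P] at h
    exact h
  refine ⟨fun hmon hz => key ?_, fun hmon => ⟨fun hz hr hp => key ?_, fun hz hq => key ?_,
    fun N _ hz hs hN => key ?_⟩⟩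
  · refine Run7.h988.DG.fin_all (E' := E') τ₀ D.ne (fun τ₁ h1 n σ => ?_) ρ
    refine Pool.Agent.R389.main (L := Run7.h988.DG.up E' D.L) (P := Run7.h988.DG.up E' D.P)
      (p := 2) hζ (fun τ => D.mero _) (fun τ => D.ne _) hmon τ₁ hdeg
      Nat.prime_two ⊤ Pool.Agent.R389.top_pgroup 1 ?_ σ
    rw [h1]
    exact le_max_of_le_left hz
  · exact Run7.h988.DG.fin_real (E' := E') hζ D.mero D.ne hmon τ₀ hr hdeg hz ρ hp
  · refine Run7.h988.DG.fin_all (E' := E') τ₀ D.ne (fun τ₁ h1 n σ => ?_) ρ
    refine Pool.Agent.R389.main_two (L := Run7.h988.DG.up E' D.L)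
      (P := Run7.h988.DG.up E' D.P) hζ (fun τ => D.mero _) (fun τ => D.ne _) hmon τ₁ hdeg ?_ ?_ σ
    · rw [h1]; exact hz
    · rw [h1]; exact hq
  · refine Run7.h988.DG.fin_all (E' := E') τ₀ D.ne (fun τ₁ h1 n σ => ?_) ρ
    refine Run7.h988.DG.main_simple (L := Run7.h988.DG.up E' D.L)
      (P := Run7.h988.DG.up E' D.P) hζ (fun τ => D.mero _) (fun τ => D.ne _) hmon τ₁ hdeg N ?_ ?_
      ?_ σ
    · rw [h1]; exact hz
    · rw [h1]; exact hs
    · intro W _ _ _ σ hσ
      rcases hN with hN | hN
      · exact Run7.h988.DG.del_of_an (L := Run7.h988.DG.up E' D.L)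
          (P := Run7.h988.DG.up E' D.P) hζ (fun τ => D.mero _) (fun τ => D.ne _) hmon τ₁ hN σ hσ
      · exact hN W σ hσ

end Pool.Agent.Results.MP_cd171c_nt.SmallOrders
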